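import Mathlib
import Pool.Agent.Helper46.TC.Final
import Pool.Agent.Helper66.TC.Ridout
import Pool.Agent.Helper32.DO.DimPoly

/-!
# Diophantine properties do not decide the distribution of powers modulo one

Near every real number `θ > 1` (for instance `e` or `π`) there is a set of real numbers `α` of Hausdorff dimension
one such that all the sequences `P_i(α) α^n`, for given non-zero real polynomials `P_i`, stay away modulo one from
prescribed targets, although `α` has transcendence measures of the best possible order in the height, also for linear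
forms whose coefficients are integers times `S`-units, and the properties that are known for most powers of `e`.

The measures hold for almost all points of trees of intervals (`Helper46/TC`), by a quantitative nondivergence
argument of Kleinbock and Margulis; the trees that avoid the targets are built in `Helper32/DO`.
-/

set_option autoImplicit false

namespace Pool.Agent.Helper82.Old.TranscendenceBarrier

open Polynomial MeasureTheory Pool.Agent.Helper46.TC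

theorem result (θ : ℝ) (hθ : 1 < θ) (ε : ℝ) (hε : 0 < ε) (Q : ℕ → ℝ[X]) (hQ : ∀ i, Q i ≠ 0) (ξ : ℕ → ℕ → ℝ) :
    dimH {α : ℝ | |α - θ| < ε ∧
    -- (a) all the sequences `Q i (α) * α ^ n` stay away, modulo one, from their targets
    (∀ i, ∃ δ : ℝ, 0 < δ ∧ ∀ n : ℕ, 1 ≤ n →
      δ ≤ |(Q i).eval α * α ^ n - ξ i n - round ((Q i).eval α * α ^ n - ξ i n)|) ∧
    -- (b) linear forms in powers of `α` with `S`-units
    (∀ S : Finset ℕ, (∀ p ∈ S, 1 ≤ p) → ∃ C : ℝ, 0 < C ∧ ∀ (k N : ℕ) (u : Fin (k + 1) → ℝ) (v : Fin (k + 1) → ℤ)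
      (H m : ℝ), 1 ≤ k → (∀ c, ∃ e : ℕ → ℤ, (∀ p ∈ S, |e p| ≤ N) ∧ u c = ∏ p ∈ S, (p : ℝ) ^ (e p)) → v ≠ 0 →
      1 ≤ H → (∀ c, |(v c : ℝ)| ≤ H) → (∀ c, m ≤ u c) →
      m * Real.exp (-(C * (k : ℝ) ^ 5 * (1 + Real.log (1 + Real.log H) + Real.log (1 + N)))) ≤
        |∑ c, (v c : ℝ) * u c * α ^ (c : ℕ)| * ∏ i : Fin k, max 1 |(v i.succ : ℝ)|) ∧
    -- (c) transcendence measure, uniform in the degree
    (∃ C : ℝ, 0 < C ∧ ∀ (k : ℕ) (p : ℤ[X]) (H : ℝ), 1 ≤ k → p ≠ 0 → p.natDegree ≤ k → 1 ≤ H →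
      (∀ i, |(p.coeff i : ℝ)| ≤ H) → Real.exp (-(C * k * (k + Real.log H))) ≤ |aeval α p|) ∧
    -- (d) anti-concentration
    (∀ (r : ℕ) (η : ℝ), 0 < η → ∃ c C : ℝ, 0 < c ∧ ∀ x : ℝ, x ≠ 0 → ∀ P : ℝ[X], P.natDegree ≤ r → ∀ N : ℕ, 1 ≤ N →
      ({n : ℕ | 1 ≤ n ∧ n ≤ N ∧ |x * α ^ n - P.eval (n : ℝ) - round (x * α ^ n - P.eval (n : ℝ))| ≤
        Real.exp (-(η * n))}.ncard : ℝ) ≤ C * ((N : ℝ) ^ (1 - c) + |Real.log (|x|)|)) ∧
    -- (e) Ridout's theorem for most powers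
    (∀ (S : Finset ℕ), (∀ p ∈ S, 2 ≤ p) → ∀ A η : ℝ, 0 < η → ∃ c δ C : ℝ, 0 < c ∧ 0 < δ ∧
      ∀ x : ℝ, x ≠ 0 → ∀ N : ℕ, 1 ≤ N →
      ({n : ℕ | 1 ≤ n ∧ n ≤ N ∧ ∃ (e : ℕ → ℤ) (q m : ℤ), (∀ p ∈ S, |(e p : ℝ)| ≤ A * n) ∧
        1 ≤ q ∧ (q : ℝ) ≤ Real.exp (δ * n) ∧ m ≠ 0 ∧
        |x * α ^ n - (m / q : ℝ) * ∏ p ∈ S, (p : ℝ) ^ (e p)| ≤
          (1 / q : ℝ) * (∏ p ∈ S, (p : ℝ) ^ (e p)) * Real.exp (-(η * n))}.ncard : ℝ) ≤
        C * ((N : ℝ) ^ (1 - c) + |Real.log (|x|)|)) ∧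
    -- (f) almost all integer multiples
    (∀ (s : ℕ) (A η : ℝ), 0 < η → ∃ c : ℝ, 0 < c ∧ ∃ N₀ : ℕ, ∀ N : ℕ, N₀ ≤ N → ∀ K : ℕ, Real.exp (η * N) ≤ K →
      ∀ x : ℝ, Real.exp (-(η / 4 * N)) ≤ |x| → |x| ≤ Real.exp (A * N) → ∀ y : ℝ,
      ∀ S : Finset ℕ, S ⊆ Finset.Icc 1 N →
      ({k : ℕ | 1 ≤ k ∧ k ≤ K ∧ ¬ ∀ P : ℝ[X], P.natDegree ≤ s → ∀ β γ : ℝ, 0 ≤ β → β < γ → γ ≤ 1 →
        |((S.filter (fun n : ℕ => β ≤ Int.fract ((k + y) * x * α ^ n + P.eval (n : ℝ)) ∧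
            Int.fract ((k + y) * x * α ^ n + P.eval (n : ℝ)) < γ)).card : ℝ) -
          (γ - β) * S.card| ≤ (N : ℝ) ^ (1 - c)}.ncard : ℝ) ≤ K * (N : ℝ) ^ (-c))} = 1 := by
  apply dimH_eq_one
  intro s hs0 hs1
  obtain ⟨T, hTs, hlo, hpt, hav⟩ := Pool.Agent.Helper32.DO.dim_tree_poly θ ε hθ hε Q hQ ξ s hs0 hs1
  have hT0 : 0 ≤ r0 T := by
    unfold r0
    rw [hlo]
    linarith
  refine ⟨T, hTs, ?_⟩
  filter_upwards [ae_all T hT0, ae_ne_target T Q hQ ξ] with z hz hne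
  obtain ⟨hW, hU⟩ := hz
  have hα : 1 < T.pt z := hθ.trans_le (hpt z).1
  have hM : HasMult (T.pt z) := hasMult_of_unit (hW ∅)
  refine ⟨(hpt z).2, ?_, ?_, hU, ?_, ?_, ?_⟩
  · intro i
    obtain ⟨δ, hδ, n0, hn0⟩ := hav i
    exact gap_all (fun n => (Q i).eval (T.pt z) * T.pt z ^ n - ξ i n) ⟨δ, hδ, n0, fun n hn m => hn0 z n hn m⟩
      (fun n hn m => hne i n m hn)
  · intro S hS
    obtain ⟨C, hC, hm⟩ := hW S
    refine ⟨C, hC, fun k N u v H m hk hu hv hH hc hmu => ?_⟩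
    have huF : ∀ c, u c ∈ (unitFam S).W N := fun c => by
      obtain ⟨e, he, hue⟩ := hu c
      rw [hue]
      exact mem_unitFam S hS N e he
    have h1 := hm k N u v H hk huF hv hH hc
    obtain ⟨c0, hc0⟩ := mn_mem u
    have hmn0 : 0 < mn u := by
      rw [hc0]; exact lt_of_lt_of_le (Real.exp_pos _) ((unitFam S).lower N _ (huF c0))
    have h2 : m ≤ mn u := by rw [hc0]; exact hmu c0
    rw [div_mul_eq_mul_div, le_div_iff₀ hmn0] at h1
    refine le_trans ?_ h1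
    rw [mul_comm]
    exact mul_le_mul_of_nonneg_left h2 (Real.exp_pos _).le
  · exact fun r η hη => anti_conc hα hM r η hη
  · exact fun S hS A η hη => Pool.Agent.Helper66.TC.ridout hα hM S hS A η hη
  · exact fun s A η hη => aam_of_mult hα hM s A η hη

end Pool.Agent.Helper82.Old.TranscendenceBarrier
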